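import Mathlib
import Pool.Agent.Q321.AP.Half

set_option autoImplicit false

/-! # Artin's density with correction factor in cosets of groups, for the primes of a progression

Let `T x z m c` be the set of the primes `p ≤ x`, `p ≡ c mod m`, such that `p - 1` has no odd prime
factor `≤ z`.  For an integer `n = D k²`, `D` squarefree, the expected proportion of the primes in
`T x z m c` with the primitive root `n` is the proportion `density D m c` of the value `-1` of the
quadratic symbol `(D / a)` among the residue classes `a` modulo `4 |D| m` which are allowed for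
these primes.

Let `a_1, …, a_r` be multiplicatively independent integers and `b ≠ 0` an integer, all of absolute
value at most `(log x) ^ B`.  The bases are the elements `n = b a_1^(v_1) ⋯ a_r^(v_r)` with `v` in a
thin set `V` of exponent vectors.  We show that with few exceptions `v` the proportion is the
expected one up to `ε`, for every squarefree part `D` of either sign, of any residue modulo `4` and
of any size, and for all admissible classes `c` modulo the fixed number `m` at once; it is `1 / 2`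
if `m` is odd and `D` is not `1` modulo `4`. -/

namespace Pool.Agent.Results.MP_991e92_nt.CosetsInProgressions

open Finset Classical

/-- the primes `p ≤ x`, `p ≡ c mod m`, such that every odd prime factor of `p - 1` exceeds `z` -/
noncomputable def T (x z m c : ℕ) : Finset ℕ :=
  (Finset.range (x + 1)).filter (fun p : ℕ => p.Prime ∧ p ≡ c [MOD m] ∧
    ∀ q : ℕ, q.Prime → q ∣ p - 1 → q = 2 ∨ z < q)

/-- the number of the primes `p ∈ T x z m c` for which `n` is a primitive root modulo `p` -/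
noncomputable def P (n : ℤ) (x z m c : ℕ) : ℕ :=
  ((T x z m c).filter (fun p : ℕ => orderOf (n : ZMod p) = p - 1)).card

/-- the class `c` modulo `m` is prime to `m` and not `1` modulo an odd prime factor of `m` (other
classes contain no elements of `T x z m c` beyond the divisors of `m` if `m ≤ z`) -/
def Admissible (m c : ℕ) : Prop := c.Coprime m ∧ ∀ q : ℕ, q.Prime → q ∣ m → q ≠ 2 → ¬ c ≡ 1 [MOD q]

/-- the residue classes `a` modulo `4 |D| m` above the class `c` modulo `m` which are prime to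
`4 |D| m` and not `1` modulo an odd prime factor of `4 |D| m` -/
noncomputable def classes (D : ℤ) (m c : ℕ) : Finset ℕ :=
  (Finset.range (4 * D.natAbs * m)).filter (fun a : ℕ => a ≡ c [MOD m] ∧
    Admissible (4 * D.natAbs * m) a)

/-- the expected density: the proportion of the classes `a` with Jacobi symbol `(D / a) = -1` -/
noncomputable def density (D : ℤ) (m c : ℕ) : ℝ :=
  (((classes D m c).filter (fun a : ℕ => jacobiSym D a = -1)).card : ℝ) / (classes D m c).card

/-- multiplicative independence -/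
def Independent {r : ℕ} (a : Fin r → ℤ) : Prop :=
  ∀ c : Fin r → ℤ, ∏ i, (a i : ℚ) ^ (c i) = 1 → ∀ i, c i = 0

/-- the element `b ∏ a_i ^ v_i` of the coset of `b` -/
def elt {r : ℕ} (a : Fin r → ℤ) (b : ℤ) (v : Fin r → ℕ) : ℤ := b * ∏ i, a i ^ v i

/-- every affine hyperplane modulo every prime `l > z` contains at most `h` elements of `V` -/
def Thin {r : ℕ} (V : Finset (Fin r → ℕ)) (z h : ℕ) : Prop :=
  ∀ l : ℕ, l.Prime → z < l → ∀ u : Fin r → ZMod l, u ≠ 0 → ∀ c : ZMod l,
    (V.filter (fun v => ∑ i, u i * (v i : ZMod l) = c)).card ≤ h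

theorem T_eq (x z m c : ℕ) : T x z m c = Pool.Agent.Q321.AP.Tc x z m c := by
  ext p
  unfold T Pool.Agent.Q321.AP.Tc
  rw [mem_filter, mem_filter, mem_range, Pool.Agent.Q321.AP.mem_TT]
  constructor
  · rintro ⟨h1, h2, h4, h3⟩
    refine ⟨⟨⟨h2.pos, by omega⟩, h2, fun q hq hqp => ?_⟩, h4⟩
    rw [Pool.Agent.Y855.mem_OP] at hq
    rcases h3 q hq.1 hqp with h | h <;> omega
  · rintro ⟨⟨h1, h2, h3⟩, h4⟩
    refine ⟨by omega, h2, h4, fun q hq hqp => ?_⟩
    by_contra hcon
    push Not at hcon
    refine h3 q (Pool.Agent.Y855.mem_OP.2 ⟨hq, ?_, hcon.2⟩) hqp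
    have := hq.two_le
    omega

theorem P_eq (n : ℤ) (x z m c : ℕ) : P n x z m c = (Pool.Agent.Q321.AP.Pc n x z m c).card := by
  unfold P Pool.Agent.Q321.AP.Pc
  rw [T_eq]

theorem adm_iff (m c : ℕ) : Admissible m c ↔ Pool.Agent.Q321.AP.AdmC m c := by
  unfold Admissible Pool.Agent.Q321.AP.AdmC
  refine and_congr Iff.rfl ?_
  constructor
  · intro h q hq hqm hq3 h1
    refine h q hq hqm (by omega) ?_
    unfold Nat.ModEq
    rw [h1, Nat.mod_eq_of_lt (by omega)]
  · intro h q hq hqm hq2 h1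
    have := hq.two_le
    refine h q hq hqm (by omega) ?_
    unfold Nat.ModEq at h1
    rwa [Nat.mod_eq_of_lt (by omega : 1 < q)] at h1

theorem classes_eq (D : ℤ) (m c : ℕ) : classes D m c = Pool.Agent.Q321.AP.cls D m c := by
  ext a
  unfold classes
  rw [mem_filter, mem_range, Pool.Agent.Q321.AP.mem_cls, adm_iff]
  unfold Pool.Agent.Q321.AP.AdmC Pool.Agent.Q321.AP.Good Nat.ModEq
  tauto

theorem density_eq (D : ℤ) (m c : ℕ) : density D m c = Pool.Agent.Q321.AP.dens D m c := by
  unfold density Pool.Agent.Q321.AP.dens Pool.Agent.Q321.AP.neg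
  rw [classes_eq]

theorem result :
    ∀ ε : ℝ, 0 < ε → ∀ m : ℕ, 1 ≤ m → ∃ K : ℝ, 1 ≤ K ∧ ∀ r : ℕ, 2 ≤ r → ∀ B : ℕ, ∃ x₀ : ℕ,
      ∀ x : ℕ, x₀ ≤ x → ∀ z : ℕ, (z : ℝ) ^ K ≤ x → x ^ 2 ≤ z ^ r →
      (∀ c : ℕ, Admissible m c →
        (x : ℝ) / (K * (Real.log x * Real.log z)) ≤ (T x z m c).card) ∧
      ∀ (a : Fin r → ℤ) (b : ℤ), Independent a → (∀ i, a i ≠ 0 ∧ |(a i : ℝ)| ≤ (Real.log x) ^ B) →
        b ≠ 0 → |(b : ℝ)| ≤ (Real.log x) ^ B →
        ∀ (V : Finset (Fin r → ℕ)) (h : ℕ), Thin V z h → V.card ^ (2 * r) ≤ x →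
        ∃ E ⊆ V, (E.card : ℝ) ≤ K * (h * (Real.log x / Real.log z)) ∧
          ∀ v ∈ V \ E, ∀ D k : ℤ, Squarefree D → elt a b v = D * k ^ 2 →
            ∀ c : ℕ, Admissible m c →
              |(P (elt a b v) x z m c : ℝ) - density D m c * (T x z m c).card| ≤
                ε * (T x z m c).card ∧
              (m % 2 = 1 → D % 4 ≠ 1 →
                |(P (elt a b v) x z m c : ℝ) - 1 / 2 * (T x z m c).card| ≤
                  ε * (T x z m c).card) := by
  intro ε hε m hm
  obtain ⟨K, hK, H⟩ := Pool.Agent.Q321.AP.cosets ε hε m hm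
  refine ⟨K, hK, fun r hr B => ?_⟩
  obtain ⟨x₀, H⟩ := H r hr B
  refine ⟨x₀, fun x hx z h1 h2 => ?_⟩
  obtain ⟨H1, H2⟩ := H x hx z h1 h2
  refine ⟨fun c hc => ?_, fun a b hI ha hb hbB V h hV hVx => ?_⟩
  · rw [T_eq]
    exact H1 c ((adm_iff m c).1 hc)
  · obtain ⟨E, hE, hE1, hE2⟩ := H2 a b ha hI hb hbB V h hV hVx
    refine ⟨E, hE, hE1, fun v hv D k hD hn c hc => ?_⟩
    rw [P_eq, T_eq, density_eq]
    have hc' := (adm_iff m c).1 hc
    refine ⟨?_, ?_⟩
    · exact hE2 v hv D k hD hn c hc' _ (Pool.Agent.Q321.AP.dens_nonneg D m c)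
        (Pool.Agent.Q321.AP.dens_le_one D m c) (Pool.Agent.Q321.AP.dens_mul D m c)
    · intro hm2 hD4
      exact hE2 v hv D k hD hn c hc' (1 / 2) (by norm_num) (by norm_num)
        (Pool.Agent.Q321.AP.two_neg hD hD4 hm2 c)

end Pool.Agent.Results.MP_991e92_nt.CosetsInProgressions
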