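import Mathlib
import Pool.Agent.Q21.AW.Fin

set_option autoImplicit false

/-! # The primitive root density along the digits of real numbers

Let `1 / 2 < θ < 1`, `C > 1`, `C (2 θ - 1) > θ (1 - θ)`.  For almost every real number `α`, ALL long
windows of digits of `α` (in base `g`, at every position up to `g ^ (κ k)` if the window has length
`k`, `κ < 1 - θ`) give a number `m` such that the formula of Q1 holds for `D m ^ 2`, for every
admissible `D`, at all `x` between `g ^ (C k)` and a quasi-exponential bound.  The set of all real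
numbers for which this fails (positions up to `η k`) has Hausdorff dimension at most
`(θ + η) / (1 + η)`.  The same for the integer parts of `α λ_k`. -/

namespace Pool.Agent.Results.MP_991e92_nt.DigitWindows

open MeasureTheory Filter Finset Classical

/-- the number of primes `p ≤ x` modulo which `n` is a primitive root -/
noncomputable def P (n : ℤ) (x : ℕ) : ℕ :=
  ((Finset.range (x + 1)).filter (fun p : ℕ => p.Prime ∧ orderOf (n : ZMod p) = p - 1)).card

/-- Artin's constant -/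
noncomputable def A : ℝ := ∏' p : Nat.Primes, (1 - 1 / (((p : ℕ) : ℝ) * (((p : ℕ) : ℝ) - 1)))

/-- the density of Q1 for integers with squarefree part `D` -/
noncomputable def δ (D : ℤ) : ℝ :=
  (1 - ((ArithmeticFunction.moebius D.natAbs : ℤ) : ℝ) *
      ∏ q ∈ D.natAbs.primeFactors, (1 / ((q : ℝ) ^ 2 - (q : ℝ) - 1))) * A

/-- the number `|P(a, x) - d π(x)|` is at most `ε π(x)` for all `x` with
`N ^ C ≤ x ≤ exp ((log N) ^ (1 + c))` -/
def Formula (C c ε N : ℝ) (a : ℤ) (d : ℝ) : Prop :=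
  ∀ x : ℕ, N ^ C ≤ x → (x : ℝ) ≤ Real.exp ((Real.log N) ^ (1 + c)) →
    |(P a x : ℝ) - d * (Nat.primeCounting x : ℝ)| ≤ ε * (Nat.primeCounting x : ℝ)

/-- `m` is not zero, the formula of Q1 for `D m ^ 2` (if `D` is admissible) and Artin's formula for
`D m` (if `D ≠ 0`) -/
def Holds (C c ε N : ℝ) (D : ℤ) (m : ℕ) : Prop :=
  m ≠ 0 ∧ (Squarefree D → D % 4 = 1 → D ≠ 1 → Formula C c ε N (D * (m : ℤ) ^ 2) (δ D)) ∧
    (D ≠ 0 → Formula C c ε N (D * (m : ℤ)) A)

/-- the integer formed by the `k` digits number `j + 1, …, j + k` after the point of `α` in base `g` -/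
noncomputable def window (g j k : ℕ) (α : ℝ) : ℕ := (⌊(g : ℝ) ^ (j + k) * α⌋ % (g : ℤ) ^ k).toNat

open Pool.Agent.H771R4.SE Pool.Agent.Q21.AW

/-- the two data belonging to `D` -/
noncomputable def dat (D : ℤ) (i : ℕ) : Dat :=
  if i = 0 then
    (if h : Squarefree D ∧ D % 4 = 1 ∧ D ≠ 1 then dSq D h.1 h.2.1 h.2.2 else dLin 1 one_ne_zero)
  else (if h : D ≠ 0 then dLin D h else dLin 1 one_ne_zero)

lemma formula_sq {D : ℤ} (hD : Squarefree D) (hD4 : D % 4 = 1) (hD1 : D ≠ 1) {C c ε N : ℝ} {m : ℕ}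
    (h : DForm (dSq D hD hD4 hD1) C c ε N m) : Formula C c ε N (D * (m : ℤ) ^ 2) (δ D) := by
  intro x h1 h2
  have h3 := h x h1 h2
  unfold cntE at h3
  simp only [dSq, Pool.Agent.H730R2.AA.dens] at h3
  unfold P δ A
  simp only [Int.cast_mul, Int.cast_pow, Int.cast_natCast]
  exact h3

lemma formula_lin {D : ℤ} (hD : D ≠ 0) {C c ε N : ℝ} {m : ℕ}
    (h : DForm (dLin D hD) C c ε N m) : Formula C c ε N (D * (m : ℤ)) A := by
  intro x h1 h2
  have h3 := h x h1 h2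
  unfold cntE at h3
  simp only [dLin, Pool.Agent.H386R2.Artin.artinC] at h3
  unfold P A
  simp only [Int.cast_mul, Int.cast_natCast]
  exact h3

lemma holds_of {D : ℤ} {C c ε N : ℝ} {m : ℕ}
    (h : ¬ (m = 0 ∨ ¬ ∀ i ∈ ({0, 1} : Finset ℕ), DForm (dat D i) C c ε N m)) : Holds C c ε N D m := by
  rw [not_or, not_not] at h
  obtain ⟨h1, h2⟩ := h
  refine ⟨h1, fun hD hD4 hD1 => ?_, fun hD => ?_⟩
  · have h3 := h2 0 (by simp)
    unfold dat at h3
    rw [if_pos rfl, dif_pos ⟨hD, hD4, hD1⟩] at h3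
    exact formula_sq hD hD4 hD1 h3
  · have h3 := h2 1 (by simp)
    unfold dat at h3
    rw [if_neg one_ne_zero, dif_pos hD] at h3
    exact formula_lin hD h3

lemma Holds.mono {C c ε ε' N : ℝ} {D : ℤ} {m : ℕ} (h : Holds C c ε N D m) (hε : ε ≤ ε') :
    Holds C c ε' N D m :=
  ⟨h.1, fun a b e x h1 h2 => (h.2.1 a b e x h1 h2).trans (mul_le_mul_of_nonneg_right hε (Nat.cast_nonneg _)),
    fun a x h1 h2 => (h.2.2 a x h1 h2).trans (mul_le_mul_of_nonneg_right hε (Nat.cast_nonneg _))⟩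

lemma card_mono {P Q : ℕ → Prop} {i1 : DecidablePred P} {i2 : DecidablePred Q} {s t : Finset ℕ}
    (h : ∀ m ∈ s, P m → m ∈ t ∧ Q m) : (s.filter P).card ≤ (t.filter Q).card :=
  Finset.card_le_card fun m hm => by
    rw [Finset.mem_filter] at hm ⊢
    exact h m hm.1 hm.2

theorem result (θ C : ℝ) (hθ : 1 / 2 < θ) (hθ1 : θ < 1) (hC : 1 < C)
    (hCθ : θ * (1 - θ) < C * (2 * θ - 1)) :
    ∃ c : ℝ, 0 < c ∧
      (∀ g : ℕ, 2 ≤ g → ∀ κ : ℝ, κ < 1 - θ → ∀ᵐ α : ℝ, ∀ D : ℤ, ∀ ε : ℝ, 0 < ε →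
        ∀ᶠ k : ℕ in atTop, ∀ j : ℕ, (j : ℝ) ≤ (g : ℝ) ^ (κ * k) →
          Holds C c ε ((g : ℝ) ^ k) D (window g j k α)) ∧
      (∀ g : ℕ, 2 ≤ g → ∀ η : ℝ, 0 ≤ η →
        dimH {α : ℝ | ¬ ∀ D : ℤ, ∀ ε : ℝ, 0 < ε → ∀ᶠ k : ℕ in atTop, ∀ j : ℕ, (j : ℝ) ≤ η * k →
          Holds C c ε ((g : ℝ) ^ k) D (window g j k α)} ≤ ENNReal.ofReal ((θ + η) / (1 + η))) ∧
      (∀ s : ℝ, θ < s → ∀ l : ℕ → ℝ, (∀ k, 0 < l k) → Summable (fun k => l k ^ (θ - s)) →
        μH[s] {α : ℝ | 0 < α ∧ ¬ ∀ D : ℤ, ∀ ε : ℝ, 0 < ε → ∀ᶠ k : ℕ in atTop,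
          Holds C c ε (l k) D ⌊α * l k⌋₊} = 0) := by
  obtain ⟨c, hc, h⟩ := few_real θ C hθ hθ1 hC hCθ
  have few : ∀ (D : ℤ) (ε : ℝ), 0 < ε → Few θ (fun N m =>
      ¬ ∀ i ∈ ({0, 1} : Finset ℕ), DForm (dat D i) C c ε (N : ℝ) m) := by
    intro D ε hε
    obtain ⟨L₀, hL1, hL⟩ := h {0, 1} (dat D) ε hε 1
    refine ⟨⌈L₀⌉₊, fun N hN => ?_⟩
    have h1 : L₀ ≤ N := (Nat.le_ceil _).trans (by exact_mod_cast hN)
    refine le_trans ?_ (hL N h1)
    have h2 : ⌊((1 : ℕ) : ℝ) * (N : ℝ)⌋₊ = N := by rw [Nat.cast_one, one_mul, Nat.floor_natCast]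
    rw [h2]
    refine Nat.cast_le.2 (card_mono fun m hm h3 => ?_)
    rw [Finset.mem_Icc] at hm
    rw [Finset.mem_range]
    exact ⟨by omega, Or.inr h3⟩
  have hn : ∀ ε : ℝ, 0 < ε → ∃ n : ℕ, (1 : ℝ) / (n + 1) ≤ ε := fun ε hε => by
    obtain ⟨n, hn⟩ := exists_nat_one_div_lt hε
    exact ⟨n, hn.le⟩
  refine ⟨c, hc, ?_, ?_, ?_⟩
  · intro g hg κ hκ
    have h1 : ∀ᵐ α : ℝ, ∀ D : ℤ, ∀ n : ℕ, ∀ᶠ k : ℕ in atTop, ∀ j : ℕ, (j : ℝ) ≤ (g : ℝ) ^ (κ * k) →
        Holds C c (1 / (n + 1)) ((g : ℝ) ^ k) D (window g j k α) := by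
      rw [ae_all_iff]
      intro D
      rw [ae_all_iff]
      intro n
      have h2 := ae_windows g hg θ κ (by linarith) hθ1 hκ _ (few D (1 / (n + 1)) (by positivity))
      filter_upwards [h2] with α hα
      filter_upwards [hα] with k hk j hj
      have h3 := hk j hj
      rw [Nat.cast_pow] at h3
      exact holds_of h3
    filter_upwards [h1] with α hα D ε hε
    obtain ⟨n, hn'⟩ := hn ε hε
    filter_upwards [hα D n] with k hk j hj
    exact (hk j hj).mono hn'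
  · intro g hg η hη
    refine dim_le_of_null _ (by positivity) ?_ _ ?_
    · rw [div_lt_one (by positivity)]
      linarith
    · intro s hs hs1
      have h1 : ∀ D : ℤ, ∀ n : ℕ, μH[s] {α : ℝ | ¬ ∀ᶠ k : ℕ in atTop, ∀ j : ℕ, (j : ℝ) ≤ η * k →
          Holds C c (1 / (n + 1)) ((g : ℝ) ^ k) D (window g j k α)} = 0 := by
        intro D n
        refine measure_mono_null ?_ (dim_windows g hg θ η s (by linarith) hη hs hs1 _
          (few D (1 / (n + 1)) (by positivity)))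
        intro α hα hcon
        refine hα ?_
        filter_upwards [hcon] with k hk j hj
        have h3 := hk j hj
        rw [Nat.cast_pow] at h3
        exact holds_of h3
      have h2 := measure_iUnion_null (fun D : ℤ => measure_iUnion_null (h1 D))
      refine measure_mono_null ?_ h2
      intro α hα
      by_contra hcon
      refine hα ?_
      intro D ε hε
      obtain ⟨n, hn'⟩ := hn ε hε
      simp only [Set.mem_iUnion, not_exists, Set.mem_ofPred_eq, not_not] at hcon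
      filter_upwards [hcon D n] with k hk j hj
      exact (hk j hj).mono hn'
  · intro s hs l hl hsum
    have h1 : ∀ D : ℤ, ∀ n : ℕ, μH[s] {α : ℝ | 0 < α ∧ ¬ ∀ᶠ k : ℕ in atTop,
        Holds C c (1 / (n + 1)) (l k) D ⌊α * l k⌋₊} = 0 := by
      intro D n
      refine measure_mono_null ?_ (seq_null θ s hs (by linarith)
        (fun L m => m = 0 ∨ ¬ ∀ i ∈ ({0, 1} : Finset ℕ), DForm (dat D i) C c (1 / (n + 1)) L m) ?_ l hl hsum)
      · rintro α ⟨h0, hα⟩
        refine ⟨h0, fun hcon => hα ?_⟩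
        filter_upwards [hcon] with k hk
        exact holds_of hk
      · intro T
        obtain ⟨L₀, _, hL⟩ := h {0, 1} (dat D) (1 / (n + 1)) (by positivity) T
        refine ⟨L₀, fun L h3 => le_trans ?_ (hL L h3)⟩
        exact Nat.cast_le.2 (card_mono fun m hm h4 => ⟨hm, h4⟩)
    have h2 := measure_iUnion_null (fun D : ℤ => measure_iUnion_null (h1 D))
    refine measure_mono_null ?_ h2
    rintro α ⟨h0, hα⟩
    by_contra hcon
    refine hα ?_
    intro D ε hε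
    obtain ⟨n, hn'⟩ := hn ε hε
    simp only [Set.mem_iUnion, not_exists, Set.mem_ofPred_eq, not_and, not_not] at hcon
    filter_upwards [hcon D n h0] with k hk
    exact hk.mono hn'

end Pool.Agent.Results.MP_991e92_nt.DigitWindows
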