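import Pool.Agent.Q311.AR2

set_option autoImplicit false

/-!
# The bases `B m ^ k` for almost all integers `m` which arise from an arbitrary integer by changing a few digits

Let `B` be an integer as in the problem: it is not a perfect power and its squarefree part `D` satisfies `D ≡ 1 mod 4`.  Let
`A = ∏_p (1 - 1 / (p (p - 1)))` and let `dens D k` be `A` for odd `k` and the density
`(1 - μ(|D|) ∏_{q ∣ D} 1 / (q² - q - 1)) A` of the problem for even `k`.  Let `P B k m x` be the number of primes `p ≤ x` modulo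
which `B m ^ k` is a primitive root.

Start with an arbitrary number `N` with at most `K` digits in base `b`, prescribe for every position a new digit and choose `r ≤ K / 2` of
the `K` positions.  For all but a proportion `1 / y ^ a` of the choices the number `m` obtained satisfies
`|P B k m x - dens D k π(x)| ≤ ε π(x)` for ALL `x` with `y ≤ x ≤ exp (c r)` and ALL exponents `k ≤ x ^ a` with
`∑_{l ∣ k, l > L} 1 / l ≤ δ` (part 2).

Part 1 is a law with square-root error for ALL integers `B` with `|B| ≤ x ^ a`, all `1 ≤ k ≤ x ^ a` and ARBITRARY sets of primes.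

Nothing is used besides Mathlib in the statement.
-/

namespace Pool.Agent.Results.MP_991e92_nt.FewDigitChanges

open Finset Filter

/-- The digit number `i` (counted from the right, beginning with `0`) of `n` in base `b`. -/
def digit (b i n : ℕ) : ℕ := n / b ^ i % b

/-- The number which arises from the number `N` with at most `K` digits in base `b`, if for every `i ∈ S`
the digit number `i` is replaced by `f i`. -/
def change (b K N : ℕ) (f : ℕ → ℕ) (S : Finset ℕ) : ℕ :=
  ∑ i ∈ range K, (if i ∈ S then f i else digit b i N) * b ^ i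

open Classical in
/-- The number of the choices of `r` of `K` positions for which the number obtained by
changing the digits of `N` at the chosen positions (according to `f`) does not have the property `E`. -/
noncomputable def exceptions (b K r N : ℕ) (f : ℕ → ℕ) (E : ℕ → Prop) : ℕ :=
  ((powersetCard r (range K)).filter (fun S => ¬ E (change b K N f S))).card

open Classical in
/-- The number of the primes of the set `Q` modulo which `B m ^ k` is a primitive root. -/
noncomputable def count (Q : Finset ℕ) (B : ℤ) (k m : ℕ) : ℕ :=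
  (Q.filter (fun p : ℕ => orderOf ((B * (m : ℤ) ^ k : ℤ) : ZMod p) = p - 1)).card

/-- the set of the primes up to `x` -/
def primesUpTo (x : ℕ) : Finset ℕ := (range (x + 1)).filter Nat.Prime

open Classical in
/-- The expected value for the prime `p`: it is `0` if `p ∣ B` or if `B` is an `l`-th power modulo `p` for a prime `l` dividing
`k` and `p - 1`; otherwise it is the product of the `1 - 1 / l` over the primes `l ∣ p - 1` which do not divide `k`. -/
noncomputable def expected (B : ℤ) (k p : ℕ) : ℝ :=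
  if (p : ℤ) ∣ B ∨ ∃ l : ℕ, l.Prime ∧ l ∣ k ∧ l ∣ p - 1 ∧ ∃ y : ZMod p, y ^ l = (B : ZMod p) then 0
  else ∏ l ∈ (p - 1).primeFactors.filter (fun l => ¬ l ∣ k), (1 - 1 / (l : ℝ))

/-- Artin's constant -/
noncomputable def A : ℝ := ∏' p : Nat.Primes, (1 - 1 / (((p : ℕ) : ℝ) * (((p : ℕ) : ℝ) - 1)))

/-- Artin's constant for odd `k`, the density of the problem for even `k` -/
noncomputable def dens (D : ℤ) (k : ℕ) : ℝ :=
  if Even k then (1 - ((ArithmeticFunction.moebius D.natAbs : ℤ) : ℝ) *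
    ∏ q ∈ D.natAbs.primeFactors, (1 / ((q : ℝ) ^ 2 - (q : ℝ) - 1))) * A else A

open Classical in
theorem result (b : ℕ) (hb : 2 ≤ b) (a : ℕ) :
    (∀ δ : ℝ, 0 < δ → ∃ c : ℝ, 0 < c ∧ ∃ y₀ : ℕ, ∀ r K y : ℕ, 2 * r ≤ K → y₀ ≤ y →
      ∀ N : ℕ, N < b ^ K → ∀ f : ℕ → ℕ, (∀ j, f j < b ∧ f j ≠ digit b j N) →
      ∀ Q : ℕ → Finset ℕ, (∀ x, ∀ p ∈ Q x, p.Prime ∧ p ≤ x) →
        (exceptions b K r N f (fun m => ∀ x : ℕ, y ≤ x → (x : ℝ) ≤ Real.exp (c * r) →
          ∀ B : ℤ, |B| ≤ (x : ℤ) ^ a → ∀ k : ℕ, 1 ≤ k → k ≤ x ^ a →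
            |(count (Q x) B k m : ℝ) - ∑ p ∈ Q x, expected B k p| ≤ Real.sqrt (Q x).card * (x : ℝ) ^ δ) : ℝ) ≤
          1 / (y : ℝ) ^ a * (K.choose r : ℝ)) ∧
    (∃ c : ℝ, 0 < c ∧ ∀ B D t : ℤ, B = D * t ^ 2 → Squarefree D → D % 4 = 1 →
      (∀ h : ℕ, 1 < h → ∀ z : ℤ, z ^ h ≠ B) → ∀ ε : ℝ, 0 < ε → ∃ δ : ℝ, 0 < δ ∧ ∀ L : ℕ, ∃ y₀ : ℕ,
      ∀ r K y : ℕ, 2 * r ≤ K → y₀ ≤ y → ∀ N : ℕ, N < b ^ K → ∀ f : ℕ → ℕ, (∀ j, f j < b ∧ f j ≠ digit b j N) →
        (exceptions b K r N f (fun m => ∀ x : ℕ, y ≤ x → (x : ℝ) ≤ Real.exp (c * r) →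
          ∀ k : ℕ, 1 ≤ k → k ≤ x ^ a → ∑ l ∈ k.primeFactors.filter (fun l : ℕ => L < l), (1 / (l : ℝ)) ≤ δ →
            |(count (primesUpTo x) B k m : ℝ) - dens D k * (Nat.primeCounting x : ℝ)| ≤
              ε * (Nat.primeCounting x : ℝ)) : ℝ) ≤
          1 / (y : ℝ) ^ a * (K.choose r : ℝ)) := by
  have hch : ∀ (K N : ℕ) (f : ℕ → ℕ) (S : Finset ℕ), change b K N f S = Pool.Agent.TH894.SM.change b K N f S :=
    fun _ _ _ _ => rfl
  have hy : ∀ y : ℕ, 1 ≤ y → (y : ℝ) ^ (-(a : ℝ)) = 1 / (y : ℝ) ^ a := by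
    intro y _
    rw [Real.rpow_neg (Nat.cast_nonneg _), Real.rpow_natCast, one_div]
  refine ⟨fun δ hδ => ?_, ?_⟩
  · obtain ⟨c, hc, x₀, h⟩ := Pool.Agent.TH894.ND.artin_few b hb δ hδ a
    refine ⟨c, hc, x₀ + 1, fun r K y hrK hy0 N hN f hf Q hQ => ?_⟩
    rw [← hy y (by omega)]
    unfold exceptions
    refine h r K y hrK (by omega) N hN f hf Q hQ _ (filter_subset _ _) ?_
    intro S hS
    rw [mem_filter] at hS
    have h1 := hS.2
    push Not at h1
    obtain ⟨x, hyx, hxr, B, hB, k, hk, hkx, hbad⟩ := h1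
    have hx0 : (0 : ℝ) < x := by
      have : 1 ≤ x := by omega
      exact_mod_cast this
    refine ⟨x, hyx, (Real.log_le_iff_le_exp hx0).2 hxr, B, k, hB, hk, hkx, ?_⟩
    rw [hch] at hbad
    have e1 : ∀ p, expected B k p = Pool.Agent.TH890.AS.locDens B k p := by
      intro p
      unfold expected Pool.Agent.TH890.AS.locDens
      congr!
    have e2 : count (Q x) B k (Pool.Agent.TH894.SM.change b K N f S) =
        ((Q x).filter (fun p => orderOf ((B * ((Pool.Agent.TH894.SM.change b K N f S : ℕ) : ℤ) ^ k : ℤ) : ZMod p) = p - 1)).card := by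
      unfold count
      congr!
    rw [e2, sum_congr rfl fun p _ => e1 p] at hbad
    exact hbad
  · obtain ⟨c, hc, h⟩ := Pool.Agent.Q311.AR.few_mean b hb a
    refine ⟨c, hc, fun B D t hB hD h4 hpow ε hε => ?_⟩
    have ht : t ≠ 0 := by
      rintro rfl
      exact hpow 2 one_lt_two 0 (by rw [hB]; ring)
    obtain ⟨δ, hδ, h2⟩ := h ⟨B, D, t, hB, hD, h4, ht, hpow⟩ ε hε
    refine ⟨δ, hδ, fun L => ?_⟩
    obtain ⟨y₀, h3⟩ := h2 L
    refine ⟨y₀ + 1, fun r K y hrK hy0 N hN f hf => ?_⟩
    rw [← hy y (by omega)]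
    unfold exceptions
    refine h3 r K y hrK (by omega) N hN f hf _ (filter_subset _ _) ?_
    intro S hS
    rw [mem_filter] at hS
    have h1 := hS.2
    push Not at h1
    obtain ⟨x, hyx, hxr, k, hk, hkx, hkL, hbad⟩ := h1
    have hx0 : (0 : ℝ) < x := by
      have : 1 ≤ x := by omega
      exact_mod_cast this
    refine ⟨x, hyx, (Real.log_le_iff_le_exp hx0).2 hxr, k, hk, hkx, ?_, ?_⟩
    · refine le_trans (le_of_eq ?_) hkL
      congr!
    · rw [hch] at hbad
      have e1 : Pool.Agent.TH893.BR.Bs.e ⟨B, D, t, hB, hD, h4, ht, hpow⟩ k.primeFactors *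
          Pool.Agent.H386R2.Artin.artinC = dens D k := by
        unfold dens Pool.Agent.TH893.BR.Bs.e Pool.Agent.TH893.BR.Bs.cf
        have h2 : 2 ∈ k.primeFactors ↔ Even k := by
          rw [Nat.mem_primeFactors, even_iff_two_dvd]
          exact ⟨fun h => h.2.1, fun h => ⟨Nat.prime_two, h, by omega⟩⟩
        by_cases h : Even k
        · rw [if_pos (h2.2 h), if_pos h]
          rfl
        · rw [if_neg (fun h' => h (h2.1 h')), if_neg h, one_mul]
          rfl
      have e2 : count (primesUpTo x) B k (Pool.Agent.TH894.SM.change b K N f S) =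
          ((Pool.Agent.H386R2.Artin.PP x).filter (fun p => orderOf ((B * ((Pool.Agent.TH894.SM.change b K N f S : ℕ) : ℤ) ^ k : ℤ) : ZMod p) = p - 1)).card := by
        unfold count primesUpTo Pool.Agent.H386R2.Artin.PP
        congr!
      rw [e2, ← e1] at hbad
      exact hbad

end Pool.Agent.Results.MP_991e92_nt.FewDigitChanges
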