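import Pool.Agent.Q241.AP.Prog

/-!
# Primitive roots modulo the primes of all progressions and of all short intervals at once

The bases are the numbers `B m ^ r`; for instance, if `D ≡ 1 mod 4` is squarefree, `B = D b ^ 2` and
`r = 2`, these are bases with the squarefree part `D`. The expected value at the prime `p` is `0` if
`p ∣ B` or if `B` is an `l`-th power modulo `p` for a prime `l` dividing `r` and `p - 1`, and otherwise
the product of the `1 - 1 / l` over the primes `l ∣ p - 1` not dividing `r`. (For `r = 2` and odd `p`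
this is `0` if `B` is a square modulo `p`, and otherwise the proportion of the primitive roots among the
quadratic nonresidues.)

1. For almost all `m ≤ N` the number of the primes `p ∈ S` modulo which `B m ^ r` is a primitive root is
the sum of the expected values over `S`, up to a power saving, for ALL sets `S` of an arbitrary family
of at most `X ^ τ` sets of at least `X ^ σ` primes up to `X`. Here `X ^ (2 / κ) ≤ N ≤ X ^ C` and
`τ < σ / κ`.

2. For almost all `m ≤ N` this is true for the primes of ALL intervals `(u, v]`, `v ≤ X`, and ALL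
arithmetic progressions `a mod d`, with the error `X ^ (-c) ((v - u) / d + X ^ σ)`, for every
`σ > 2 κ / (2 κ + 1)`. For `κ = 1` (`N ≥ X ^ 2`) these are the intervals of length `X ^ (2 / 3 + ε)`, and
the progressions to all moduli up to `X ^ (1 / 3 - ε)`.

The number of the exceptions `m` is at most `N X ^ (-c)`, and everything is uniform in `B` and `r`.

The large sieve for arbitrary sets of primes is in `Pool.Agent.TH890.AS` (helper890).
-/

set_option autoImplicit false

namespace Pool.Agent.Results.MP_991e92_nt.ProgressionsAndIntervals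

open Finset

open Classical in
/-- the expected value at the prime `p` -/
noncomputable def expected (B : ℤ) (r p : ℕ) : ℝ :=
  if (p : ℤ) ∣ B ∨ ∃ l : ℕ, l.Prime ∧ l ∣ r ∧ l ∣ p - 1 ∧ ∃ y : ZMod p, y ^ l = (B : ZMod p) then 0
  else ∏ l ∈ (p - 1).primeFactors.filter (fun l => ¬ l ∣ r), (1 - 1 / (l : ℝ))

open Classical in
/-- the difference between the number of the `p ∈ S` modulo which `B m ^ r` is a primitive root and the
sum of the expected values, in absolute value -/
noncomputable def error (B : ℤ) (r m : ℕ) (S : Finset ℕ) : ℝ :=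
  |(#(S.filter (fun p => orderOf ((B * (m : ℤ) ^ r : ℤ) : ZMod p) = p - 1)) : ℝ) -
    ∑ p ∈ S, expected B r p|

/-- the primes `p ≡ a mod d` with `u < p ≤ v` -/
def primesIn (d a u v : ℕ) : Finset ℕ := (Ioc u v).filter (fun p => p.Prime ∧ p ≡ a [MOD d])

open Classical in
/-- the `m` from `1` to `N` for which the error is large for some set of the family -/
noncomputable def badFamily (B : ℤ) (r N : ℕ) (F : Finset (Finset ℕ)) (δ : ℝ) : Finset ℕ :=
  (Icc 1 N).filter (fun m => ∃ S ∈ F, #S * δ < error B r m S)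

open Classical in
/-- the `m` from `1` to `N` for which the error is large for some progression and some interval -/
noncomputable def badProgression (B : ℤ) (r N X : ℕ) (σ δ : ℝ) : Finset ℕ :=
  (Icc 1 N).filter (fun m => ∃ d a u v : ℕ, 1 ≤ d ∧ u ≤ v ∧ v ≤ X ∧
    δ * (((v : ℝ) - u) / d + (X : ℝ) ^ σ) < error B r m (primesIn d a u v))

lemma error_eq (B : ℤ) (r m : ℕ) (S : Finset ℕ) : error B r m S = Pool.Agent.Q241.AP.Dev B r m S := rfl

lemma primesIn_eq (d a u v : ℕ) : primesIn d a u v = Pool.Agent.Q241.AP.PS d a u v := rfl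

/-- **Main theorem.** (1) Families of sets of primes. (2) All progressions and intervals at once. -/
theorem result (κ C : ℕ) (hκ : 1 ≤ κ) (hC : 1 ≤ C) :
    (∀ σ τ : ℝ, 0 < σ → τ < σ / κ → ∃ c : ℝ, 0 < c ∧ ∃ X₀ : ℕ, ∀ X N : ℕ, X₀ ≤ X → X ^ 2 ≤ N ^ κ →
      N ≤ X ^ C → ∀ F : Finset (Finset ℕ), (#F : ℝ) ≤ (X : ℝ) ^ τ →
        (∀ S ∈ F, (∀ p ∈ S, p.Prime ∧ p ≤ X) ∧ (X : ℝ) ^ σ ≤ #S) →
          ∀ (B : ℤ) (r : ℕ), 1 ≤ r →
            (#(badFamily B r N F ((X : ℝ) ^ (-c))) : ℝ) ≤ N * (X : ℝ) ^ (-c)) ∧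
    (∀ σ : ℝ, 2 * (κ : ℝ) / (2 * κ + 1) < σ → σ ≤ 1 → ∃ c : ℝ, 0 < c ∧ ∃ X₀ : ℕ, ∀ X N : ℕ, X₀ ≤ X →
      X ^ 2 ≤ N ^ κ → N ≤ X ^ C → ∀ (B : ℤ) (r : ℕ), 1 ≤ r →
        (#(badProgression B r N X σ ((X : ℝ) ^ (-c))) : ℝ) ≤ N * (X : ℝ) ^ (-c)) := by
  classical
  constructor
  · intro σ τ hσ hτ
    obtain ⟨c, hc, X₀, h⟩ := Pool.Agent.Q241.AP.family κ C hκ hC σ τ hσ hτ
    refine ⟨c, hc, X₀, fun X N hX hN1 hN2 F hF hS B r hr => ?_⟩
    have h1 := h X hX N hN1 hN2 F hF hS B r hr
    refine le_trans (le_of_eq ?_) h1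
    unfold badFamily
    congr!
  · intro σ hσ hσ1
    obtain ⟨c, hc, X₀, h⟩ := Pool.Agent.Q241.AP.prog κ C hκ hC σ hσ hσ1
    refine ⟨c, hc, X₀, fun X N hX hN1 hN2 B r hr => ?_⟩
    have h1 := h X hX N hN1 hN2 B r hr
    refine le_trans (le_of_eq ?_) h1
    unfold badProgression
    congr!

end Pool.Agent.Results.MP_991e92_nt.ProgressionsAndIntervals
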